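import Pool.Agent.helper67.DL.SpecL

/-! # dl:BD. Decay comparison. -/

namespace Pool.Agent.DL

open Matrix Complex
open scoped ComplexOrder

theorem BD_one (a b σ c : ℝ) : iteratedDeriv 2 (fun t : ℝ => c * ((1 + b ^ 2) + (a + t) ^ 2) ^ σ) 0 =
    c * (2 * σ * ((1 + b ^ 2) + a ^ 2) ^ (σ - 1) +
      4 * σ * (σ - 1) * a ^ 2 * ((1 + b ^ 2) + a ^ 2) ^ (σ - 2)) := by
  have hs : ∀ t : ℝ, (1 + b ^ 2) + (a + t) ^ 2 ≠ 0 := fun t => by positivity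
  have h0 : ∀ t : ℝ, HasDerivAt (fun t : ℝ => (1 + b ^ 2) + (a + t) ^ 2) (2 * (a + t)) t := by
    intro t
    have h : HasDerivAt (fun t : ℝ => (a + t) ^ 2) (((2 : ℕ) : ℝ) * (a + t) ^ (2 - 1) * 1) t :=
      ((hasDerivAt_id' t).const_add a).pow 2
    have h2 := h.const_add (1 + b ^ 2)
    have e : ((2 : ℕ) : ℝ) * (a + t) ^ (2 - 1) * 1 = 2 * (a + t) := by norm_num
    rw [e] at h2
    exact h2
  have h1 : ∀ t : ℝ, HasDerivAt (fun t : ℝ => c * ((1 + b ^ 2) + (a + t) ^ 2) ^ σ)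
      (c * (2 * (a + t) * σ * ((1 + b ^ 2) + (a + t) ^ 2) ^ (σ - 1))) t := by
    intro t
    exact ((h0 t).rpow_const (Or.inl (hs t))).const_mul c
  have h2 : ∀ t : ℝ, HasDerivAt (fun t : ℝ => c * (2 * (a + t) * σ * ((1 + b ^ 2) + (a + t) ^ 2) ^ (σ - 1)))
      (c * (2 * σ * ((1 + b ^ 2) + (a + t) ^ 2) ^ (σ - 1) +
        2 * (a + t) * σ * (2 * (a + t) * (σ - 1) * ((1 + b ^ 2) + (a + t) ^ 2) ^ (σ - 1 - 1)))) t := by
    intro t
    have h3 : HasDerivAt (fun t : ℝ => 2 * (a + t) * σ) (2 * σ) t := by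
      have h := (((hasDerivAt_id t).const_add a).const_mul 2).mul_const σ
      simpa using h
    exact (h3.mul ((h0 t).rpow_const (Or.inl (hs t)))).const_mul c
  have e1 : deriv (fun t : ℝ => c * ((1 + b ^ 2) + (a + t) ^ 2) ^ σ) =
      fun t : ℝ => c * (2 * (a + t) * σ * ((1 + b ^ 2) + (a + t) ^ 2) ^ (σ - 1)) :=
    funext fun t => (h1 t).deriv
  rw [iteratedDeriv_succ, iteratedDeriv_one, e1, (h2 0).deriv]
  have e2 : σ - 1 - 1 = σ - 2 := by ring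
  rw [e2]
  simp only [add_zero]
  ring

theorem BD_lap (z : ℂ) (σ c : ℝ) : lap (fun w : ℂ => c * (1 + ‖w‖ ^ 2) ^ σ) z =
    c * (σ * (1 + ‖z‖ ^ 2) ^ (σ - 1) + σ * (σ - 1) * ‖z‖ ^ 2 * (1 + ‖z‖ ^ 2) ^ (σ - 2)) := by
  have hn : ∀ w : ℂ, ‖w‖ ^ 2 = w.re ^ 2 + w.im ^ 2 := by
    intro w
    rw [← Complex.normSq_eq_norm_sq, Complex.normSq_apply]
    ring
  have h1 : (fun t : ℝ => c * (1 + ‖z + (t : ℂ)‖ ^ 2) ^ σ) =
      fun t : ℝ => c * ((1 + z.im ^ 2) + (z.re + t) ^ 2) ^ σ := by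
    funext t
    rw [hn]
    congr 2
    simp
    ring
  have h2 : (fun t : ℝ => c * (1 + ‖z + (t : ℂ) * I‖ ^ 2) ^ σ) =
      fun t : ℝ => c * ((1 + z.re ^ 2) + (z.im + t) ^ 2) ^ σ := by
    funext t
    rw [hn]
    congr 2
    simp
    ring
  unfold lap
  simp only
  rw [h1, h2, BD_one, BD_one, hn]
  have e1 : (1 + z.im ^ 2) + z.re ^ 2 = 1 + (z.re ^ 2 + z.im ^ 2) := by ring
  have e2 : (1 + z.re ^ 2) + z.im ^ 2 = 1 + (z.re ^ 2 + z.im ^ 2) := by ring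
  rw [e1, e2]
  ring

theorem BD_smooth (z : ℂ) (σ c : ℝ) : ContDiffAt ℝ 2 (fun w : ℂ => c * (1 + ‖w‖ ^ 2) ^ σ) z := by
  have h1 : ContDiffAt ℝ 2 (fun w : ℂ => 1 + ‖w‖ ^ 2) z :=
    contDiffAt_const.add ((contDiff_norm_sq ℝ).contDiffAt)
  have h2 : ContDiffAt ℝ 2 (fun w : ℂ => (1 + ‖w‖ ^ 2) ^ σ) z :=
    h1.rpow_const_of_ne (by positivity)
  exact contDiffAt_const.mul h2

/-- dl:BD. -/
theorem BD (hMX : MX_stmt) (hLA : LA_stmt) : BD_stmt := by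
  intro u R U σ hR hU hσ hcont hsm hle hlap
  set c : ℝ := U * (1 + R ^ 2) ^ (-σ) with hc
  have hc0 : 0 ≤ c := by positivity
  set v : ℂ → ℝ := fun w => c * (1 + ‖w‖ ^ 2) ^ σ with hv
  have hvc : Continuous v := by
    rw [continuous_iff_continuousAt]
    intro z
    exact (BD_smooth z σ c).continuousAt
  obtain ⟨z0, hz0, hmax⟩ := (isCompact_closedBall (0 : ℂ) R).exists_isMaxOn
    ⟨0, Metric.mem_closedBall_self hR.le⟩ (hcont.sub hvc.continuousOn)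
  have key : u z0 - v z0 ≤ 0 := by
    by_contra hcon
    push Not at hcon
    have hbd : ∀ z : ℂ, ‖z‖ = R → v z = U := by
      intro z hz
      simp only [hv, hc, hz]
      rw [mul_assoc, ← Real.rpow_add (by positivity)]
      simp
    have hz0' : ‖z0‖ ≤ R := by simpa using hz0
    have hlt : ‖z0‖ < R := by
      rcases lt_or_eq_of_le hz0' with h | h
      · exact h
      · have h1 := hbd z0 h
        have h2 := hle z0 hz0
        linarith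
    have hin : z0 ∈ Metric.ball (0 : ℂ) R := by simpa using hlt
    have hloc : IsLocalMax (fun w => 1 * u w + (-1) * v w) z0 := by
      have h1 : IsLocalMax (fun w => u w - v w) z0 :=
        hmax.isLocalMax (Filter.mem_of_superset (Metric.isOpen_ball.mem_nhds hin) Metric.ball_subset_closedBall)
      have h2 : (fun w => 1 * u w + (-1) * v w) = fun w => u w - v w := by funext w; ring
      rw [h2]
      exact h1
    have hvs := BD_smooth z0 σ c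
    have hus := hsm z0 hin
    have hle0 := hMX _ z0 ((contDiffAt_const.mul hus).add (contDiffAt_const.mul hvs)) hloc
    rw [hLA.1 u v z0 1 (-1) hus hvs] at hle0
    have hv0 : 0 ≤ v z0 := by simp only [hv]; positivity
    have hu0 : 0 < u z0 := by linarith
    have h3 := hlap z0 hin hu0
    have h4 : lap v z0 = c * (σ * (1 + ‖z0‖ ^ 2) ^ (σ - 1) +
        σ * (σ - 1) * ‖z0‖ ^ 2 * (1 + ‖z0‖ ^ 2) ^ (σ - 2)) := BD_lap z0 σ c
    have hs0 : (0 : ℝ) < 1 + ‖z0‖ ^ 2 := by positivity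
    have e1 : (1 + ‖z0‖ ^ 2) ^ (σ - 1) = (1 + ‖z0‖ ^ 2) ^ (σ - 2) * (1 + ‖z0‖ ^ 2) := by
      rw [← Real.rpow_add_one hs0.ne']
      congr 1
      ring
    have e2 : (1 + ‖z0‖ ^ 2) ^ σ = (1 + ‖z0‖ ^ 2) ^ (σ - 2) * (1 + ‖z0‖ ^ 2) * (1 + ‖z0‖ ^ 2) := by
      rw [← Real.rpow_add_one hs0.ne', ← Real.rpow_add_one hs0.ne']
      congr 1
      ring
    have hq : 0 ≤ (1 + ‖z0‖ ^ 2) ^ (σ - 2) := by positivity
    have h5 : lap v z0 * (1 + ‖z0‖ ^ 2) ≤ σ ^ 2 * v z0 := by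
      rw [h4]
      simp only [hv]
      rw [e1, e2]
      have h6 : σ ^ 2 * (c * ((1 + ‖z0‖ ^ 2) ^ (σ - 2) * (1 + ‖z0‖ ^ 2) * (1 + ‖z0‖ ^ 2))) -
        c * (σ * ((1 + ‖z0‖ ^ 2) ^ (σ - 2) * (1 + ‖z0‖ ^ 2)) +
          σ * (σ - 1) * ‖z0‖ ^ 2 * (1 + ‖z0‖ ^ 2) ^ (σ - 2)) * (1 + ‖z0‖ ^ 2) =
        c * (1 + ‖z0‖ ^ 2) ^ (σ - 2) * (1 + ‖z0‖ ^ 2) * (σ * (σ - 1)) := by ring
      have h7 : 0 ≤ c * (1 + ‖z0‖ ^ 2) ^ (σ - 2) * (1 + ‖z0‖ ^ 2) * (σ * (σ - 1)) := by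
        have h8 : 0 ≤ σ * (σ - 1) := mul_nonneg (by linarith) (by linarith)
        positivity
      linarith
    have h6 : σ ^ 2 * u z0 ≤ lap u z0 * (1 + ‖z0‖ ^ 2) := (div_le_iff₀ hs0).mp h3
    have h7 : lap u z0 * (1 + ‖z0‖ ^ 2) ≤ lap v z0 * (1 + ‖z0‖ ^ 2) :=
      mul_le_mul_of_nonneg_right (by linarith) hs0.le
    have h8 : σ ^ 2 * u z0 ≤ σ ^ 2 * v z0 := by linarith
    have h9 : 0 < σ ^ 2 := by positivity
    have h10 := le_of_mul_le_mul_left h8 h9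
    linarith
  have h0 : (u - v) 0 ≤ (u - v) z0 := hmax (Metric.mem_closedBall_self hR.le)
  have h01 : u 0 - v 0 ≤ u z0 - v z0 := h0
  have hv00 : v 0 = c := by simp [hv]
  linarith

end Pool.Agent.DL
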