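import Pool.Agent.helper67.DL.SpecG

/-! # dl:BW. The scalar equation and its bound. -/

namespace Pool.Agent.DL

open Matrix Complex Filter Topology
open scoped ComplexOrder Manifold ContDiff

theorem BW_lap_congr {u v : ℂ → ℝ} {z : ℂ} (h : u =ᶠ[𝓝 z] v) : lap u z = lap v z := by
  unfold lap
  have h1 : (fun t : ℝ => u (z + t)) =ᶠ[𝓝 0] fun t : ℝ => v (z + t) := by
    have hc : Tendsto (fun t : ℝ => z + (t : ℂ)) (𝓝 0) (𝓝 z) := by
      have : Continuous (fun t : ℝ => z + (t : ℂ)) := by fun_prop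
      simpa using this.tendsto 0
    exact hc.eventually h
  have h2 : (fun t : ℝ => u (z + t * I)) =ᶠ[𝓝 0] fun t : ℝ => v (z + t * I) := by
    have hc : Tendsto (fun t : ℝ => z + (t : ℂ) * I) (𝓝 0) (𝓝 z) := by
      have : Continuous (fun t : ℝ => z + (t : ℂ) * I) := by fun_prop
      simpa using this.tendsto 0
    exact hc.eventually h
  rw [h1.iteratedDeriv_eq, h2.iteratedDeriv_eq]

theorem BW_dz_congr {u v : ℂ → ℂ} {z : ℂ} (h : u =ᶠ[𝓝 z] v) : dz u z = dz v z := by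
  unfold dz
  rw [h.fderiv_eq]

theorem BW_dzb_congr {u v : ℂ → ℂ} {z : ℂ} (h : u =ᶠ[𝓝 z] v) : dzb u z = dzb v z := by
  unfold dzb
  rw [h.fderiv_eq]

/-- logarithmic derivative -/
theorem BW_dz_log {k : ℂ → ℝ} {z : ℂ} (hk : DifferentiableAt ℝ k z) (h0 : 0 < k z) :
    dz (fun v => ((Real.log (k v) : ℝ) : ℂ)) z = ((k z : ℝ) : ℂ)⁻¹ * dz (fun v => ((k v : ℝ) : ℂ)) z := by
  have h1 : HasFDerivAt (fun v => Real.log (k v)) ((k z)⁻¹ • fderiv ℝ k z) z :=
    hk.hasFDerivAt.log h0.ne'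
  have h2 : HasFDerivAt (fun v => ((Real.log (k v) : ℝ) : ℂ))
      (ofRealCLM.comp ((k z)⁻¹ • fderiv ℝ k z)) z :=
    ofRealCLM.hasFDerivAt.comp z h1
  have h3 : HasFDerivAt (fun v => ((k v : ℝ) : ℂ)) (ofRealCLM.comp (fderiv ℝ k z)) z :=
    ofRealCLM.hasFDerivAt.comp z hk.hasFDerivAt
  unfold dz
  rw [h2.fderiv, h3.fderiv]
  simp
  ring

theorem BW_diag (M : Matrix (Fin 2) (Fin 2) ℂ) (hM : M.PosDef) (h01 : M 0 1 = 0) (h10 : M 1 0 = 0) :
    0 < (M 0 0).re ∧ 0 < (M 1 1).re ∧ M 0 0 = (((M 0 0).re : ℝ) : ℂ) ∧ M 1 1 = (((M 1 1).re : ℝ) : ℂ) ∧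
    M⁻¹ = !![(M 0 0)⁻¹, 0; 0, (M 1 1)⁻¹] := by
  have h0 := hM.diag_pos (i := 0)
  have h1 := hM.diag_pos (i := 1)
  have e0 : (M 0 0).im = 0 := by
    have := (Complex.lt_def.1 h0).2
    simpa using this.symm
  have e1 : (M 1 1).im = 0 := by
    have := (Complex.lt_def.1 h1).2
    simpa using this.symm
  refine ⟨by simpa using (Complex.lt_def.1 h0).1, by simpa using (Complex.lt_def.1 h1).1,
    Complex.ext (by simp) (by simp [e0]), Complex.ext (by simp) (by simp [e1]), ?_⟩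
  apply Matrix.inv_eq_right_inv
  ext i j
  fin_cases i <;> fin_cases j <;> simp [Matrix.mul_apply, Fin.sum_univ_two, h01, h10, h0.ne', h1.ne']

/-- the local scalar equation -/
theorem BW_loc (hLW : LW_stmt) (hLA : LA_stmt) {Ω : Set ℂ} (hΩ : IsOpen Ω)
    {A H : ℂ → Matrix (Fin 2) (Fin 2) ℂ} {W : ℂ → ℝ} (hH : LH 2 Ω A W H)
    (s q : ℂ → ℂ) (hA : ∀ z ∈ Ω, A z = !![s z, q z; 1, s z])
    (hd : ∀ z ∈ Ω, H z 0 1 = 0 ∧ H z 1 0 = 0) :
    ContDiffOn ℝ 2 (fun z => Real.log ((H z 0 0).re / (H z 1 1).re) / 2) Ω ∧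
    ∀ z ∈ Ω, lap (fun z => Real.log ((H z 0 0).re / (H z 1 1).re) / 2) z =
      W z * (‖q z‖ ^ 2 * Real.exp (2 * (Real.log ((H z 0 0).re / (H z 1 1).re) / 2)) -
        Real.exp (-(2 * (Real.log ((H z 0 0).re / (H z 1 1).re) / 2)))) := by
  have hk : ∀ i : Fin 2, ContDiffOn ℝ 2 (fun z => (H z i i).re) Ω := fun i =>
    (reCLM.contDiff (n := 2)).comp_contDiffOn (hH.smooth i i)
  have hD : ∀ z ∈ Ω, 0 < (H z 0 0).re ∧ 0 < (H z 1 1).re ∧ H z 0 0 = (((H z 0 0).re : ℝ) : ℂ) ∧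
      H z 1 1 = (((H z 1 1).re : ℝ) : ℂ) ∧ (H z)⁻¹ = !![(H z 0 0)⁻¹, 0; 0, (H z 1 1)⁻¹] :=
    fun z hz => BW_diag (H z) (hH.pos z hz) (hd z hz).1 (hd z hz).2
  have hpos : ∀ i : Fin 2, ∀ z ∈ Ω, 0 < (H z i i).re := by
    intro i z hz
    fin_cases i
    · exact (hD z hz).1
    · exact (hD z hz).2.1
  have hre : ∀ i : Fin 2, ∀ z ∈ Ω, H z i i = (((H z i i).re : ℝ) : ℂ) := by
    intro i z hz
    fin_cases i
    · exact (hD z hz).2.2.1
    · exact (hD z hz).2.2.2.1
  -- entry of the connection form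
  have hF : ∀ i : Fin 2, ∀ z ∈ Ω, ((H z)⁻¹ * mdz H z) i i =
      dz (fun v => ((Real.log (H v i i).re : ℝ) : ℂ)) z := by
    intro i z hz
    have hdif : DifferentiableAt ℝ (fun v => (H v i i).re) z :=
      ((hk i).contDiffAt (hΩ.mem_nhds hz)).differentiableAt (by norm_num)
    rw [BW_dz_log hdif (hpos i z hz)]
    have h1 : dz (fun v => (((H v i i).re : ℝ) : ℂ)) z = dz (fun v => H v i i) z :=
      BW_dz_congr (Filter.eventually_of_mem (hΩ.mem_nhds hz) (fun v hv => (hre i v hv).symm))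
    rw [h1, ← hre i z hz, (hD z hz).2.2.2.2]
    fin_cases i <;> simp [Matrix.mul_apply, Fin.sum_univ_two, mdz]
  have hlog : ∀ i : Fin 2, ∀ z ∈ Ω, ContDiffAt ℝ 2 (fun v => Real.log (H v i i).re) z := by
    intro i z hz
    exact ((hk i).contDiffAt (hΩ.mem_nhds hz)).log (hpos i z hz).ne'
  have hlap : ∀ i : Fin 2, ∀ z ∈ Ω, ((lap (fun v => Real.log (H v i i).re) z : ℝ) : ℂ) =
      (W z : ℂ) * (A z * adj (H z) (A z) - adj (H z) (A z) * A z) i i := by
    intro i z hz
    rw [hLW _ z (hlog i z hz)]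
    have h1 := congrFun (congrFun (hH.eq z hz) i) i
    rw [Matrix.smul_apply, smul_eq_mul] at h1
    rw [← h1]
    show _ = dzb (fun w => ((H w)⁻¹ * mdz H w) i i) z
    exact BW_dzb_congr (Filter.eventually_of_mem (hΩ.mem_nhds hz) (fun v hv => (hF i v hv).symm))
  have hcomm : ∀ z ∈ Ω, (A z * adj (H z) (A z) - adj (H z) (A z) * A z) 0 0 =
      (((‖q z‖ ^ 2 * ((H z 0 0).re / (H z 1 1).re) - (H z 1 1).re / (H z 0 0).re : ℝ)) : ℂ) ∧
      (A z * adj (H z) (A z) - adj (H z) (A z) * A z) 1 1 =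
      (((-(‖q z‖ ^ 2 * ((H z 0 0).re / (H z 1 1).re) - (H z 1 1).re / (H z 0 0).re) : ℝ)) : ℂ) := by
    intro z hz
    obtain ⟨p0, p1, r0, r1, hinv⟩ := hD z hz
    have hHz : H z = !![(((H z 0 0).re : ℝ) : ℂ), 0; 0, (((H z 1 1).re : ℝ) : ℂ)] := by
      ext i j
      fin_cases i <;> fin_cases j
      · exact r0
      · exact (hd z hz).1
      · exact (hd z hz).2
      · exact r1
    rw [r0, r1] at hinv
    set k0 : ℝ := (H z 0 0).re with hk0
    set k1 : ℝ := (H z 1 1).re with hk1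
    have n0 : (k0 : ℂ) ≠ 0 := by exact_mod_cast p0.ne'
    have n1 : (k1 : ℂ) ≠ 0 := by exact_mod_cast p1.ne'
    have hq : ((‖q z‖ ^ 2 : ℝ) : ℂ) = q z * (starRingEnd ℂ) (q z) := by
      rw [Complex.mul_conj, Complex.normSq_eq_norm_sq]
    unfold adj
    rw [hinv, hHz, hA z hz]
    constructor
    · simp only [Matrix.sub_apply, Matrix.mul_apply, Fin.sum_univ_two, Matrix.conjTranspose_apply]
      simp
      push_cast at hq
      rw [hq]
      field_simp
      ring
    · simp only [Matrix.sub_apply, Matrix.mul_apply, Fin.sum_univ_two, Matrix.conjTranspose_apply]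
      simp
      push_cast at hq
      rw [hq]
      field_simp
      ring
  have hL : ∀ z ∈ Ω, Real.log ((H z 0 0).re / (H z 1 1).re) / 2 =
      (1 / 2) * Real.log (H z 0 0).re + (-1 / 2) * Real.log (H z 1 1).re := by
    intro z hz
    rw [Real.log_div (hpos 0 z hz).ne' (hpos 1 z hz).ne']
    ring
  refine ⟨?_, ?_⟩
  · intro z hz
    have h1 : ContDiffAt ℝ 2 (fun z => (1 / 2) * Real.log (H z 0 0).re + (-1 / 2) * Real.log (H z 1 1).re) z :=
      (contDiffAt_const.mul (hlog 0 z hz)).add (contDiffAt_const.mul (hlog 1 z hz))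
    exact (h1.congr_of_eventuallyEq (Filter.eventually_of_mem (hΩ.mem_nhds hz) hL)).contDiffWithinAt
  · intro z hz
    rw [BW_lap_congr (Filter.eventually_of_mem (hΩ.mem_nhds hz) hL),
      hLA.1 _ _ z (1 / 2) (-1 / 2) (hlog 0 z hz) (hlog 1 z hz)]
    have h0 : lap (fun v => Real.log (H v 0 0).re) z =
        W z * (‖q z‖ ^ 2 * ((H z 0 0).re / (H z 1 1).re) - (H z 1 1).re / (H z 0 0).re) := by
      have := hlap 0 z hz
      rw [(hcomm z hz).1] at this
      exact_mod_cast this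
    have h1 : lap (fun v => Real.log (H v 1 1).re) z =
        W z * -(‖q z‖ ^ 2 * ((H z 0 0).re / (H z 1 1).re) - (H z 1 1).re / (H z 0 0).re) := by
      have := hlap 1 z hz
      rw [(hcomm z hz).2] at this
      exact_mod_cast this
    have hr : 0 < (H z 0 0).re / (H z 1 1).re := div_pos (hpos 0 z hz) (hpos 1 z hz)
    have e1 : Real.exp (2 * (Real.log ((H z 0 0).re / (H z 1 1).re) / 2)) =
        (H z 0 0).re / (H z 1 1).re := by
      rw [mul_div_cancel₀ _ (two_ne_zero), Real.exp_log hr]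
    have e2 : Real.exp (-(2 * (Real.log ((H z 0 0).re / (H z 1 1).re) / 2))) =
        (H z 1 1).re / (H z 0 0).re := by
      rw [Real.exp_neg, e1, inv_div]
    rw [h0, h1, e1, e2]
    ring

section
variable {X : Type} [TopologicalSpace X] [ChartedSpace ℂ X]

/-- the local expression of the density -/
noncomputable def BW_g (D : CD X) (a t : ℝ) (K : Bool → X → Matrix (Fin 2) (Fin 2) ℂ) (i : Bool) (x : X) : ℝ :=
  ‖quo (qF D a t) ((cov D a).η i) 2 x‖ ^ 2 * ((K i x 0 0).re / (K i x 1 1).re) ^ 2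

theorem BW_holo_cont {f : X → ℂ} {U : Set X} (hU : IsOpen U) (hf : HoloOn f U) {x : X} (hx : x ∈ U) :
    ContinuousAt f x := by
  have he := chart_mem_atlas ℂ x
  have hxs := mem_chart_source ℂ x
  set e := chartAt ℂ x
  have hopen : IsOpen (e.target ∩ e.symm ⁻¹' U) := e.isOpen_inter_preimage_symm hU
  have hmem : e x ∈ e.target ∩ e.symm ⁻¹' U := by
    refine ⟨e.map_source hxs, ?_⟩
    show e.symm (e x) ∈ U
    rw [e.left_inv hxs]
    exact hx
  have h1 : ContinuousAt (fun z => f (e.symm z)) (e x) :=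
    ((hf e he).differentiableAt (hopen.mem_nhds hmem)).continuousAt
  have h2 : ContinuousAt (fun y => f (e.symm (e y))) x :=
    ContinuousAt.comp (f := e) (g := fun z => f (e.symm z)) h1 (e.continuousAt hxs)
  refine h2.congr (Filter.eventually_of_mem (e.open_source.mem_nhds hxs) (fun y hy => ?_))
  show f (e.symm (e y)) = f y
  rw [e.left_inv hy]

theorem BW_lh_cont {n : ℕ} {K : X → Matrix (Fin n) (Fin n) ℂ} {A : X → Matrix (Fin n) (Fin n) ℂ} {U : Set X}
    (hU : IsOpen U) {W : OpenPartialHomeomorph X ℂ → ℂ → ℝ}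
    (h : ∀ e ∈ atlas ℂ X, LH n (e.target ∩ e.symm ⁻¹' U) (fun z => A (e.symm z)) (W e)
      (fun z => K (e.symm z))) {x : X} (hx : x ∈ U) (i j : Fin n) :
    ContinuousAt (fun y => K y i j) x ∧ (K x).PosDef := by
  have he := chart_mem_atlas ℂ x
  have hxs := mem_chart_source ℂ x
  have hh := h (chartAt ℂ x) he
  set e := chartAt ℂ x
  have hopen : IsOpen (e.target ∩ e.symm ⁻¹' U) := e.isOpen_inter_preimage_symm hU
  have hmem : e x ∈ e.target ∩ e.symm ⁻¹' U := by
    refine ⟨e.map_source hxs, ?_⟩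
    show e.symm (e x) ∈ U
    rw [e.left_inv hxs]
    exact hx
  constructor
  · have h1 : ContinuousAt (fun z => K (e.symm z) i j) (e x) :=
      ((hh.smooth i j).contDiffAt (hopen.mem_nhds hmem)).continuousAt
    have h2 : ContinuousAt (fun y => K (e.symm (e y)) i j) x :=
      ContinuousAt.comp (f := e) (g := fun z => K (e.symm z) i j) h1 (e.continuousAt hxs)
    refine h2.congr (Filter.eventually_of_mem (e.open_source.mem_nhds hxs) (fun y hy => ?_))
    show K (e.symm (e y)) i j = K y i j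
    rw [e.left_inv hy]
  · have h1 := hh.pos (e x) hmem
    simp only [e.left_inv hxs] at h1
    exact h1

theorem BW_covU (D : CD X) (a : ℝ) : (cov D a).U false = D.U0 ∧ (cov D a).U true = D.U1 := ⟨rfl, rfl⟩

/-- dl:BW. -/
theorem BW (hGC : GC_stmt) (hMX : MX_stmt) (hLA : LA_stmt) (hLW : LW_stmt) (hRA : RA_stmt) (hEX : EX_stmt) :
    BW_stmt := by
  intro X _ _ D hTop hD a t ha ht K hK hKd
  have ha0 : 0 < a := by linarith
  have ht0 : 0 < t := by linarith
  obtain ⟨hcov, -, -, -, -, -, -, -, -, hq0, hq1, -⟩ := hEX X D hD a t ha0 ht0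
  have hUopen : ∀ i, IsOpen ((cov D a).U i) := hcov.1
  -- the coefficient of q
  set Q : Bool → X → ℂ := fun i x => quo (qF D a t) ((cov D a).η i) 2 x with hQ
  set S : Bool → X → ℂ := fun i x => quo (sF D a t) ((cov D a).η i) 1 x with hS
  -- continuity of the metric
  have hKc : ∀ i, ∀ x ∈ (cov D a).U i, ∀ b c, ContinuousAt (fun y => K i y b c) x ∧ (K i x).PosDef := by
    intro i x hx b c
    exact BW_lh_cont (A := (BV D a t).A i) (hUopen i) (hK.loc i) hx b c
  have hpos : ∀ i, ∀ x ∈ (cov D a).U i, 0 < (K i x 0 0).re ∧ 0 < (K i x 1 1).re := by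
    intro i x hx
    have h := BW_diag (K i x) (hKc i x hx 0 0).2 (hKd i x hx).1 (hKd i x hx).2
    exact ⟨h.1, h.2.1⟩
  -- holomorphy of Q in charts
  have hQan : ∀ i, ∀ e ∈ atlas ℂ X, ∀ z ∈ e.target ∩ e.symm ⁻¹' ((cov D a).U i),
      AnalyticAt ℂ (fun w => Q i (e.symm w)) z := by
    intro i e he z hz
    have hopen : IsOpen (e.target ∩ e.symm ⁻¹' ((cov D a).U i)) := e.isOpen_inter_preimage_symm (hUopen i)
    cases i with
    | false =>
      have h1 : AnalyticAt ℂ (fun w => D.ζ (e.symm w)) z :=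
        (hD.holo0 e he).analyticAt (hopen.mem_nhds hz)
      have h2 : AnalyticAt ℂ (fun w => qq t (a * D.ζ (e.symm w))) z := by
        unfold qq
        fun_prop
      refine h2.congr (Filter.eventually_of_mem (hopen.mem_nhds hz) (fun w hw => ?_))
      exact ((hq0 (e.symm w) hw.2).2).symm
    | true =>
      have h1 : AnalyticAt ℂ (fun w => D.ν (e.symm w)) z :=
        (hD.holo1 e he).analyticAt (hopen.mem_nhds hz)
      have h2 : AnalyticAt ℂ (fun w => (t : ℂ) ^ 2 * (D.ν (e.symm w) ^ 4 - (a : ℂ) ^ 2 * D.ν (e.symm w) ^ 2)) z := by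
        fun_prop
      refine h2.congr (Filter.eventually_of_mem (hopen.mem_nhds hz) (fun w hw => ?_))
      exact ((hq1 (e.symm w) hw.2).2).symm
  have hQc : ∀ i, ∀ x ∈ (cov D a).U i, ContinuousAt (Q i) x := by
    intro i x hx
    refine BW_holo_cont (hUopen i) ?_ hx
    intro e he z hz
    exact (hQan i e he z hz).differentiableAt.differentiableWithinAt
  have hgc : ∀ i, ∀ x ∈ (cov D a).U i, ContinuousAt (BW_g D a t K i) x := by
    intro i x hx
    have h0 : ContinuousAt (fun y => (K i y 0 0).re) x :=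
      Complex.continuous_re.continuousAt.comp (hKc i x hx 0 0).1
    have h1 : ContinuousAt (fun y => (K i y 1 1).re) x :=
      Complex.continuous_re.continuousAt.comp (hKc i x hx 1 1).1
    exact ((hQc i x hx).norm.pow 2).mul ((h0.div h1 (hpos i x hx).2.ne').pow 2)
  -- invariance
  have hinv : ∀ x, x ∈ (cov D a).U false → x ∈ (cov D a).U true →
      BW_g D a t K false x = BW_g D a t K true x := by
    intro x hx0 hx1
    have hmul := hD.mul x ⟨hx0, hx1⟩
    have hgl := hK.glue false true x ⟨hx0, hx1⟩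
    have e0 : K true x 0 0 = (starRingEnd ℂ) (D.ζ x) * K false x 0 0 * D.ζ x := by
      rw [hgl]
      show ((diagonal ![D.ζ x, D.ν x])ᴴ * K false x * diagonal ![D.ζ x, D.ν x]) 0 0 = _
      simp [Matrix.mul_apply, Fin.sum_univ_two]
    have e1 : K true x 1 1 = (starRingEnd ℂ) (D.ν x) * K false x 1 1 * D.ν x := by
      rw [hgl]
      show ((diagonal ![D.ζ x, D.ν x])ᴴ * K false x * diagonal ![D.ζ x, D.ν x]) 1 1 = _
      simp [Matrix.mul_apply, Fin.sum_univ_two]
    have hdg := BW_diag (K false x) (hKc false x hx0 0 0).2 (hKd false x hx0).1 (hKd false x hx0).2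
    have r0 : (K true x 0 0).re = ‖D.ζ x‖ ^ 2 * (K false x 0 0).re := by
      rw [e0, hdg.2.2.1]
      have : (starRingEnd ℂ) (D.ζ x) * (((K false x 0 0).re : ℝ) : ℂ) * D.ζ x =
          ((‖D.ζ x‖ ^ 2 * (K false x 0 0).re : ℝ) : ℂ) := by
        have h : ((‖D.ζ x‖ ^ 2 : ℝ) : ℂ) = D.ζ x * (starRingEnd ℂ) (D.ζ x) := by
          rw [Complex.mul_conj, Complex.normSq_eq_norm_sq]
        rw [Complex.ofReal_mul, h]
        ring
      rw [this, Complex.ofReal_re, Complex.ofReal_re]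
    have r1 : (K true x 1 1).re = ‖D.ν x‖ ^ 2 * (K false x 1 1).re := by
      rw [e1, hdg.2.2.2.1]
      have : (starRingEnd ℂ) (D.ν x) * (((K false x 1 1).re : ℝ) : ℂ) * D.ν x =
          ((‖D.ν x‖ ^ 2 * (K false x 1 1).re : ℝ) : ℂ) := by
        have h : ((‖D.ν x‖ ^ 2 : ℝ) : ℂ) = D.ν x * (starRingEnd ℂ) (D.ν x) := by
          rw [Complex.mul_conj, Complex.normSq_eq_norm_sq]
        rw [Complex.ofReal_mul, h]
        ring
      rw [this, Complex.ofReal_re, Complex.ofReal_re]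
    have q0 := (hq0 x hx0).2
    have q1 := (hq1 x hx1).2
    have hζ : D.ζ x ≠ 0 := left_ne_zero_of_mul (by rw [hmul]; exact one_ne_zero)
    have hν : D.ν x ≠ 0 := right_ne_zero_of_mul (by rw [hmul]; exact one_ne_zero)
    have hQQ : Q true x = D.ν x ^ 4 * Q false x := by
      show quo (qF D a t) ((cov D a).η true) 2 x = D.ν x ^ 4 * quo (qF D a t) ((cov D a).η false) 2 x
      rw [q0, q1]
      unfold qq
      have : D.ν x ^ 2 = D.ν x ^ 4 * D.ζ x ^ 2 := by
        calc D.ν x ^ 2 = D.ν x ^ 2 * (D.ζ x * D.ν x) ^ 2 := by rw [hmul]; ring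
          _ = _ := by ring
      calc (t : ℂ) ^ 2 * (D.ν x ^ 4 - (a : ℂ) ^ 2 * D.ν x ^ 2)
          = (t : ℂ) ^ 2 * (D.ν x ^ 4 - (a : ℂ) ^ 2 * (D.ν x ^ 4 * D.ζ x ^ 2)) := by rw [← this]
        _ = _ := by ring
    have hn : ‖D.ζ x‖ * ‖D.ν x‖ = 1 := by rw [← norm_mul, hmul, norm_one]
    have hzp : 0 < ‖D.ζ x‖ := norm_pos_iff.2 hζ
    have hvp : 0 < ‖D.ν x‖ := norm_pos_iff.2 hν
    have hv : ‖D.ν x‖ = ‖D.ζ x‖⁻¹ := eq_inv_of_mul_eq_one_right hn
    show ‖Q false x‖ ^ 2 * ((K false x 0 0).re / (K false x 1 1).re) ^ 2 =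
      ‖Q true x‖ ^ 2 * ((K true x 0 0).re / (K true x 1 1).re) ^ 2
    rw [hQQ, r0, r1, norm_mul, norm_pow, hv]
    have p1 := (hpos false x hx0).2
    field_simp
  -- the global function
  classical
  set f : X → ℝ := fun x => if x ∈ D.U0 then BW_g D a t K false x else BW_g D a t K true x with hf
  have hfi : ∀ i, ∀ x ∈ (cov D a).U i, f x = BW_g D a t K i x := by
    intro i x hx
    cases i with
    | false =>
      have hx' : x ∈ D.U0 := hx
      simp only [hf]
      rw [if_pos hx']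
    | true =>
      simp only [hf]
      by_cases h : x ∈ D.U0
      · rw [if_pos h]
        exact hinv x h hx
      · rw [if_neg h]
  have hcovx : ∀ x, ∃ i, x ∈ (cov D a).U i := hcov.2.1
  have hfc : Continuous f := by
    rw [continuous_iff_continuousAt]
    intro x
    obtain ⟨i, hi⟩ := hcovx x
    exact (hgc i x hi).congr (Filter.eventually_of_mem ((hUopen i).mem_nhds hi) (fun y hy => (hfi i y hy).symm))
  have hcpt : CompactSpace X := hTop.2.1
  obtain ⟨p, -, hp⟩ := isCompact_univ.exists_isMaxOn (⟨D.x0, Set.mem_univ _⟩ : (Set.univ : Set X).Nonempty)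
    hfc.continuousOn
  have hpmax : ∀ x, f x ≤ f p := fun x => hp (Set.mem_univ x)
  have hle1 : f p ≤ 1 := by
    by_contra hcon
    push Not at hcon
    obtain ⟨i, hi⟩ := hcovx p
    have he := chart_mem_atlas ℂ p
    have hps := mem_chart_source ℂ p
    have hne : (cov D a).η i (chartAt ℂ p) p ≠ 0 := hcov.2.2.2 i p hi
    have hLH := hK.loc i (chartAt ℂ p) he
    have hQa := hQan i (chartAt ℂ p) he
    set e := chartAt ℂ p with hee
    set Ω := e.target ∩ e.symm ⁻¹' ((cov D a).U i) with hΩdef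
    have hΩ : IsOpen Ω := e.isOpen_inter_preimage_symm (hUopen i)
    have hmem : e p ∈ Ω := by
      refine ⟨e.map_source hps, ?_⟩
      show e.symm (e p) ∈ (cov D a).U i
      rw [e.left_inv hps]
      exact hi
    obtain ⟨hLs, hLe⟩ := BW_loc hLW hLA hΩ hLH (fun z => S i (e.symm z)) (fun z => Q i (e.symm z))
      (fun z hz => rfl) (fun z hz => hKd i (e.symm z) hz.2)
    have hfp : f p = ‖Q i p‖ ^ 2 * ((K i p 0 0).re / (K i p 1 1).re) ^ 2 := hfi i p hi
    have hQp : Q i p ≠ 0 := by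
      intro h
      rw [hfp, h] at hcon
      simp at hcon
      linarith
    set L : ℂ → ℝ := fun z => Real.log ((K i (e.symm z) 0 0).re / (K i (e.symm z) 1 1).re) / 2 with hL
    have hQep : Q i (e.symm (e p)) ≠ 0 := by rw [e.left_inv hps]; exact hQp
    obtain ⟨hRs, hRe⟩ := hRA.2 (fun w => Q i (e.symm w)) (e p) (hQa (e p) hmem) hQep
    have hLsp : ContDiffAt ℝ 2 L (e p) := hLs.contDiffAt (hΩ.mem_nhds hmem)
    have hloc : IsLocalMax (fun w => 2 * Real.log ‖Q i (e.symm w)‖ + 4 * L w) (e p) := by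
      have hev : ∀ᶠ w in 𝓝 (e p), Q i (e.symm w) ≠ 0 :=
        (hQa (e p) hmem).continuousAt.eventually_ne hQep
      have hexp : ∀ w ∈ Ω, Q i (e.symm w) ≠ 0 →
          2 * Real.log ‖Q i (e.symm w)‖ + 4 * L w = Real.log (f (e.symm w)) := by
        intro w hw hQw
        rw [hfi i (e.symm w) hw.2]
        have hr : 0 < (K i (e.symm w) 0 0).re / (K i (e.symm w) 1 1).re :=
          div_pos (hpos i _ hw.2).1 (hpos i _ hw.2).2
        show _ = Real.log (‖Q i (e.symm w)‖ ^ 2 * ((K i (e.symm w) 0 0).re / (K i (e.symm w) 1 1).re) ^ 2)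
        rw [Real.log_mul (by positivity) (by positivity), Real.log_pow, Real.log_pow]
        simp only [hL]
        push_cast
        ring
      filter_upwards [hev, hΩ.mem_nhds hmem] with w hw1 hw2
      rw [hexp w hw2 hw1, hexp (e p) hmem hQep]
      have h1 : 0 < f (e.symm w) := by
        rw [hfi i (e.symm w) hw2.2]
        have hr : 0 < (K i (e.symm w) 0 0).re / (K i (e.symm w) 1 1).re :=
          div_pos (hpos i _ hw2.2).1 (hpos i _ hw2.2).2
        show 0 < ‖Q i (e.symm w)‖ ^ 2 * ((K i (e.symm w) 0 0).re / (K i (e.symm w) 1 1).re) ^ 2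
        positivity
      rw [e.left_inv hps]
      exact Real.log_le_log h1 (hpmax _)
    have hl0 := hMX _ (e p) ((contDiffAt_const.mul hRs).add (contDiffAt_const.mul hLsp)) hloc
    rw [hLA.1 _ _ (e p) 2 4 hRs hLsp, hRe, hLe (e p) hmem] at hl0
    simp only [e.left_inv hps] at hl0
    have hW : 0 < ‖(BV D a t).C.η i e p‖ ^ 2 := by
      have : (BV D a t).C.η i e p ≠ 0 := hne
      positivity
    have hr : 0 < (K i p 0 0).re / (K i p 1 1).re := div_pos (hpos i p hi).1 (hpos i p hi).2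
    rw [mul_div_cancel₀ _ (two_ne_zero), Real.exp_neg, Real.exp_log hr] at hl0
    set r := (K i p 0 0).re / (K i p 1 1).re
    have h3 : ‖Q i p‖ ^ 2 * r - r⁻¹ ≤ 0 := by
      by_contra h
      push Not at h
      have := mul_pos hW h
      linarith
    have h4 : f p = (‖Q i p‖ ^ 2 * r) * r := by rw [hfp]; ring
    have h5 : f p ≤ 1 := by
      rw [h4]
      calc (‖Q i p‖ ^ 2 * r) * r ≤ r⁻¹ * r := mul_le_mul_of_nonneg_right (by linarith) hr.le
        _ = 1 := inv_mul_cancel₀ hr.ne'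
    linarith
  -- the coordinate
  have hball : ∀ z ∈ Metric.ball (0 : ℂ) 3, z / a ∈ Metric.ball (0 : ℂ) (1 / 2) := by
    intro z hz
    rw [mem_ball_zero_iff] at hz ⊢
    rw [norm_div, Complex.norm_real, Real.norm_of_nonneg ha0.le, div_lt_iff₀ ha0]
    linarith
  have hac : (a : ℂ) ≠ 0 := by exact_mod_cast ha0.ne'
  have hmaps : Set.MapsTo (fun z : ℂ => z / a) (Metric.ball 0 3) (D.e0.target ∩ D.e0.symm ⁻¹' ((cov D a).U false)) := by
    intro z hz
    exact ⟨hD.e0t (hball z hz), (hD.e0z _ (hball z hz)).1⟩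
  have hLH := hGC 2 (Metric.ball 0 3) (D.e0.target ∩ D.e0.symm ⁻¹' ((cov D a).U false)) (fun z => z / a) _ _ _
    (fun z => ‖D.η0 D.e0 (D.e0.symm (z / a))‖ ^ 2) Metric.isOpen_ball
    (D.e0.isOpen_inter_preimage_symm (hUopen false)) (by fun_prop) hmaps (hK.loc false D.e0 hD.e0a) (by
      intro z hz
      have hdv : deriv (fun z : ℂ => z / a) z = 1 / a := by
        simp [deriv_div_const]
      rw [hdv]
      show _ = ‖(a : ℂ) * D.η0 D.e0 (D.e0.symm (z / a))‖ ^ 2 * ‖(1 : ℂ) / a‖ ^ 2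
      rw [norm_mul, norm_div, norm_one, Complex.norm_real, Real.norm_of_nonneg ha0.le]
      field_simp)
  obtain ⟨hLs, hLe⟩ := BW_loc hLW hLA Metric.isOpen_ball hLH (fun z => S false (D.e0.symm (z / a)))
    (fun z => Q false (D.e0.symm (z / a))) (fun z hz => rfl)
    (fun z hz => hKd false (D.e0.symm (z / a)) (hmaps hz).2)
  have hQz : ∀ z ∈ Metric.ball (0 : ℂ) 3, Q false (D.e0.symm (z / a)) = qq t z := by
    intro z hz
    have h1 := (hq0 _ (hmaps hz).2).2
    have h2 := (hD.e0z _ (hball z hz)).2.1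
    show quo (qF D a t) ((cov D a).η false) 2 (D.e0.symm (z / a)) = qq t z
    rw [h1, h2, mul_div_cancel₀ _ hac]
  refine ⟨ht, fun z hz => ⟨(hD.e0z _ (hball z hz)).2.2.1, (hD.e0z _ (hball z hz)).2.2.2⟩, hLs, ?_, ?_⟩
  · intro z hz
    have := hLe z hz
    rw [hQz z hz] at this
    exact this
  · intro z hz
    have hx := (hmaps hz).2
    have hr : 0 < (K false (D.e0.symm (z / a)) 0 0).re / (K false (D.e0.symm (z / a)) 1 1).re :=
      div_pos (hpos false _ hx).1 (hpos false _ hx).2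
    rw [mul_div_cancel₀ _ (two_ne_zero), Real.exp_log hr]
    have h1 : f (D.e0.symm (z / a)) ≤ 1 := (hpmax _).trans hle1
    rw [hfi false _ hx] at h1
    have h2 : (‖qq t z‖ * ((K false (D.e0.symm (z / a)) 0 0).re / (K false (D.e0.symm (z / a)) 1 1).re)) ^ 2 ≤ 1 := by
      have h3 : BW_g D a t K false (D.e0.symm (z / a)) = ‖Q false (D.e0.symm (z / a))‖ ^ 2 *
        ((K false (D.e0.symm (z / a)) 0 0).re / (K false (D.e0.symm (z / a)) 1 1).re) ^ 2 := rfl
      rw [h3, hQz z hz] at h1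
      rw [mul_pow]
      exact h1
    exact (sq_le_one_iff₀ (by positivity)).1 h2

end

end Pool.Agent.DL
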